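import Pool.Agent.Helper57.TW.Goals
import Pool.Agent.Helper54.CG.EB
import Pool.Agent.Helper61.CR.CY

/-!
# Packet T74B-EV: the total error in the sieve
-/

set_option autoImplicit false

open Finset Filter Topology

open scoped Classical

namespace Pool.Agent.Helper66.TW

open Pool.Agent.Helper88.CG (tw pw th)
open Pool.Agent.Helper88.PP (SS Sf)
open Pool.Agent.Helper76.TW (Qm)
open Pool.Agent.Helper57.TW

theorem th_nonneg (x q a : ℕ) : 0 ≤ th x q a := by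
  unfold th
  exact sum_nonneg fun n _ => Pool.Agent.Helper54.CG.pw_nonneg x n

theorem th_le_card {x : ℕ} (hx : 0 < x) (q a : ℕ) :
    th x q a ≤ ((Icc 1 x).filter (fun n => n ≡ a [MOD q])).card := by
  unfold th
  calc ∑ n ∈ (Icc 1 x).filter (fun n => n ≡ a [MOD q]), pw x n
      ≤ ∑ n ∈ (Icc 1 x).filter (fun n => n ≡ a [MOD q]), (1 : ℝ) :=
        sum_le_sum fun n _ => Pool.Agent.Helper54.CG.pw_le hx n
    _ = _ := by simp

theorem th_le {x : ℕ} (hx : 0 < x) {q : ℕ} (hq : 1 ≤ q) (a : ℕ) : th x q a ≤ x / q + 2 := by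
  have h1 := th_le_card hx q a
  have h2 : ((Icc 1 x).filter (fun n => n ≡ a [MOD q])).card ≤
      ((range (x + 1)).filter (fun n => n ≡ a [MOD q])).card := by
    apply card_le_card
    apply filter_subset_filter
    intro n hn
    rw [mem_Icc] at hn
    rw [mem_range]
    omega
  have h2' : (((Icc 1 x).filter (fun n => n ≡ a [MOD q])).card : ℝ) ≤
      (((range (x + 1)).filter (fun n => n ≡ a [MOD q])).card : ℝ) := by exact_mod_cast h2
  have h3 := Pool.Agent.Helper61.CR.card_modEq_le hq a (x + 1)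
  have hq0 : (1 : ℝ) ≤ q := by exact_mod_cast hq
  have h4 : (((x + 1 : ℕ) : ℝ)) / q ≤ x / q + 1 := by
    push_cast
    rw [add_div]
    have : (1 : ℝ) / q ≤ 1 := by
      rw [div_le_one (by linarith)]
      exact hq0
    linarith
  linarith

theorem th_one_le {x : ℕ} (hx : 0 < x) : th x 1 0 ≤ x := by
  have h1 := th_le_card hx 1 0
  have h2 : ((Icc 1 x).filter (fun n => n ≡ 0 [MOD 1])).card ≤ (Icc 1 x).card :=
    card_filter_le _ _
  rw [Nat.card_Icc, Nat.add_sub_cancel] at h2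
  have h3 : (((Icc 1 x).filter (fun n => n ≡ 0 [MOD 1])).card : ℝ) ≤ x := by exact_mod_cast h2
  linarith

/-- the product in `Qm` -/
noncomputable def Pm (q p₁ w : ℕ) : ℕ :=
  ∏ p ∈ (Icc 1 w).filter (fun p => p.Prime ∧ p ≠ p₁ ∧ ¬ p ∣ q), p

theorem Qm_eq (q p₁ w : ℕ) : Qm q p₁ w = q * Pm q p₁ w := rfl

theorem Pm_pos (q p₁ w : ℕ) : 1 ≤ Pm q p₁ w := by
  unfold Pm
  apply Nat.succ_le_of_lt
  apply prod_pos
  intro p hp
  rw [mem_filter] at hp
  exact hp.2.1.pos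

theorem prime_dvd_Pm {q p₁ w p : ℕ} (hp : p.Prime) (h : p ∣ Pm q p₁ w) :
    p ≤ w ∧ p ≠ p₁ ∧ ¬ p ∣ q := by
  unfold Pm at h
  rw [Prime.dvd_finsetProd_iff hp.prime] at h
  obtain ⟨r, hr, hpr⟩ := h
  rw [mem_filter, mem_Icc] at hr
  have : p = r := (Nat.prime_dvd_prime_iff_eq hp hr.2.1).1 hpr
  subst this
  exact ⟨hr.1.2, hr.2.2.1, hr.2.2.2⟩

theorem Pm_squarefree (q p₁ w : ℕ) : Squarefree (Pm q p₁ w) := by
  unfold Pm
  apply Finset.squarefree_prod_of_pairwise_isCoprime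
  · intro p hp r hr hpr
    rw [mem_coe, mem_filter] at hp hr
    exact (Nat.coprime_iff_isRelPrime.1 ((Nat.coprime_primes hp.2.1 hr.2.1).2 hpr))
  · intro p hp
    rw [mem_filter] at hp
    exact hp.2.1.prime.squarefree

theorem Pm_le (q p₁ w : ℕ) : Pm q p₁ w ≤ 4 ^ w := by
  refine le_trans ?_ (primorial_le_four_pow w)
  unfold Pm primorial
  apply prod_le_prod_of_subset_of_one_le'
  · intro p hp
    rw [mem_filter, mem_Icc] at hp
    rw [mem_filter, mem_range]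
    exact ⟨by omega, hp.2.1⟩
  · intro p hp _
    rw [mem_filter] at hp
    exact hp.2.one_le

theorem four_pow_le_exp (w : ℕ) : (4 : ℝ) ^ w ≤ Real.exp (2 * w) := by
  have h1 : (4 : ℝ) ≤ Real.exp 2 := by
    have h2 := Real.add_one_le_exp (1 : ℝ)
    have h3 : Real.exp 2 = Real.exp 1 * Real.exp 1 := by
      rw [← Real.exp_add]
      norm_num
    rw [h3]
    nlinarith
  calc (4 : ℝ) ^ w ≤ (Real.exp 2) ^ w := pow_le_pow_left₀ (by norm_num) h1 w
    _ = Real.exp (2 * w) := by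
      rw [← Real.exp_nat_mul]
      ring_nf

theorem size_le {w d1 P : ℕ} {L : ℝ} (hL : (3 : ℝ) ^ 12 ≤ L) (hw1 : 1 ≤ w)
    (hw : (w : ℝ) ^ 5 ≤ L) (hP : P ≤ 4 ^ w) (hd : (d1 : ℝ) ≤ Real.exp (L ^ (1 / 4 : ℝ))) :
    ((P * d1 : ℕ) : ℝ) ≤ Real.exp (L ^ (1 / 3 : ℝ)) := by
  have hL0 : (0 : ℝ) < L := lt_of_lt_of_le (by norm_num) hL
  have hw1' : (1 : ℝ) ≤ w := by exact_mod_cast hw1
  have h1 : (w : ℝ) ≤ L ^ (1 / 4 : ℝ) := by
    have h2 : (w : ℝ) ^ 4 ≤ L := le_trans (pow_le_pow_right₀ hw1' (by norm_num)) hw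
    have h3 : ((w : ℝ) ^ 4) ^ (1 / 4 : ℝ) ≤ L ^ (1 / 4 : ℝ) :=
      Real.rpow_le_rpow (by positivity) h2 (by norm_num)
    have h4 : ((w : ℝ) ^ 4) ^ (1 / 4 : ℝ) = w := by
      rw [← Real.rpow_natCast, ← Real.rpow_mul (by positivity)]
      norm_num
    rwa [h4] at h3
  have h5 : 3 * L ^ (1 / 4 : ℝ) ≤ L ^ (1 / 3 : ℝ) := by
    have h6 : L ^ (1 / 3 : ℝ) = L ^ (1 / 12 : ℝ) * L ^ (1 / 4 : ℝ) := by
      rw [← Real.rpow_add hL0]
      norm_num
    have h7 : (3 : ℝ) ≤ L ^ (1 / 12 : ℝ) := by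
      have h8 : ((3 : ℝ) ^ 12) ^ (1 / 12 : ℝ) ≤ L ^ (1 / 12 : ℝ) :=
        Real.rpow_le_rpow (by positivity) hL (by norm_num)
      have h9 : ((3 : ℝ) ^ 12) ^ (1 / 12 : ℝ) = 3 := by
        rw [← Real.rpow_natCast, ← Real.rpow_mul (by positivity)]
        norm_num
      rwa [h9] at h8
    rw [h6]
    exact mul_le_mul_of_nonneg_right h7 (by positivity)
  have h10 : (P : ℝ) ≤ Real.exp (2 * w) := by
    have : (P : ℝ) ≤ (4 : ℝ) ^ w := by exact_mod_cast hP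
    exact this.trans (four_pow_le_exp w)
  push_cast
  calc (P : ℝ) * d1 ≤ Real.exp (2 * w) * Real.exp (L ^ (1 / 4 : ℝ)) :=
        mul_le_mul h10 hd (by positivity) (by positivity)
    _ = Real.exp (2 * w + L ^ (1 / 4 : ℝ)) := by rw [Real.exp_add]
    _ ≤ Real.exp (L ^ (1 / 3 : ℝ)) := by
      apply Real.exp_le_exp.2
      linarith

/-- the bound for one modulus -/
theorem one_bound {x Q d1 d2 a : ℕ} {T : ℝ} (hx : 0 < x) (hQ : 1 ≤ Q) (h1 : 1 ≤ d1) (h2 : 1 ≤ d2)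
    (hT : 0 ≤ T) (hQd : Q * (d1 * d2) ≤ x)
    (hc : Nat.totient (Q * (d1 * d2)) = Nat.totient Q * Nat.totient d1 * Nat.totient d2)
    (hc1 : Nat.totient (Q * d1) = Nat.totient Q * Nat.totient d1)
    (Y : Prop) (hY : ¬ Y → |th x (Q * d1) a - th x 1 0 / (Nat.totient (Q * d1) : ℝ)| ≤
      T / (Nat.totient (Q * d1) : ℝ)) :
    |th x (Q * (d1 * d2)) a - th x 1 0 / (Nat.totient (Q * (d1 * d2)) : ℝ)| ≤
      |th x (Q * (d1 * d2)) a - th x (Q * d1) a / (Nat.totient d2 : ℝ)| +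
      (T + (if Y then 4 * (x : ℝ) else 0)) / (Nat.totient Q : ℝ) *
        ((1 / (Nat.totient d1 : ℝ)) * (1 / (Nat.totient d2 : ℝ))) := by
  have hxr : (0 : ℝ) < x := by exact_mod_cast hx
  have p0 : 0 < Nat.totient Q := Nat.totient_pos.2 hQ
  have p1 : 0 < Nat.totient d1 := Nat.totient_pos.2 h1
  have p2 : 0 < Nat.totient d2 := Nat.totient_pos.2 h2
  have r0 : (0 : ℝ) < Nat.totient Q := by exact_mod_cast p0
  have r1 : (0 : ℝ) < Nat.totient d1 := by exact_mod_cast p1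
  have r2 : (0 : ℝ) < Nat.totient d2 := by exact_mod_cast p2
  have hc' : (Nat.totient (Q * (d1 * d2)) : ℝ) =
      Nat.totient Q * Nat.totient d1 * Nat.totient d2 := by
    rw [hc]
    push_cast
    ring
  have hc1' : (Nat.totient (Q * d1) : ℝ) = Nat.totient Q * Nat.totient d1 := by
    rw [hc1]
    push_cast
    ring
  by_cases hy : Y
  · rw [if_pos hy]
    have hpos : 1 ≤ Q * (d1 * d2) := Nat.succ_le_of_lt (by positivity)
    have h3 := th_le hx hpos a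
    have h4 := th_nonneg x (Q * (d1 * d2)) a
    have h5 := th_one_le hx
    have h6 := th_nonneg x 1 0
    have h7 : (0 : ℝ) < ((Q * (d1 * d2) : ℕ) : ℝ) := by exact_mod_cast hpos
    have h8 : ((Q * (d1 * d2) : ℕ) : ℝ) ≤ x := by exact_mod_cast hQd
    have h9 : (Nat.totient (Q * (d1 * d2)) : ℝ) ≤ ((Q * (d1 * d2) : ℕ) : ℝ) := by
      exact_mod_cast Nat.totient_le _
    have h10 : (0 : ℝ) < (Nat.totient (Q * (d1 * d2)) : ℝ) := by
      rw [hc']
      positivity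
    have h11 : (x : ℝ) / ((Q * (d1 * d2) : ℕ) : ℝ) ≤
        x / (Nat.totient (Q * (d1 * d2)) : ℝ) :=
      div_le_div_of_nonneg_left hxr.le h10 h9
    have h12 : (1 : ℝ) ≤ x / (Nat.totient (Q * (d1 * d2)) : ℝ) := by
      rw [le_div_iff₀ h10]
      linarith
    have h13 : th x 1 0 / (Nat.totient (Q * (d1 * d2)) : ℝ) ≤
        x / (Nat.totient (Q * (d1 * d2)) : ℝ) := div_le_div_of_nonneg_right h5 h10.le
    have h14 : 0 ≤ th x 1 0 / (Nat.totient (Q * (d1 * d2)) : ℝ) := div_nonneg h6 h10.le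
    have h15 : |th x (Q * (d1 * d2)) a - th x 1 0 / (Nat.totient (Q * (d1 * d2)) : ℝ)| ≤
        4 * (x / (Nat.totient (Q * (d1 * d2)) : ℝ)) := by
      rw [abs_le]
      constructor <;> linarith
    have h16 : (4 : ℝ) * (x / (Nat.totient (Q * (d1 * d2)) : ℝ)) ≤
        (T + 4 * x) / (Nat.totient Q : ℝ) *
        ((1 / (Nat.totient d1 : ℝ)) * (1 / (Nat.totient d2 : ℝ))) := by
      rw [hc']
      have : (4 : ℝ) * (x / (Nat.totient Q * Nat.totient d1 * Nat.totient d2)) =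
          (4 * x) / (Nat.totient Q : ℝ) *
        ((1 / (Nat.totient d1 : ℝ)) * (1 / (Nat.totient d2 : ℝ))) := by
        field_simp
      rw [this]
      apply mul_le_mul_of_nonneg_right _ (by positivity)
      apply div_le_div_of_nonneg_right _ r0.le
      linarith
    have h17 := abs_nonneg (th x (Q * (d1 * d2)) a - th x (Q * d1) a / (Nat.totient d2 : ℝ))
    linarith
  · rw [if_neg hy, add_zero]
    have h3 := hY hy
    have h4 : th x (Q * (d1 * d2)) a - th x 1 0 / (Nat.totient (Q * (d1 * d2)) : ℝ) =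
        (th x (Q * (d1 * d2)) a - th x (Q * d1) a / (Nat.totient d2 : ℝ)) +
        (th x (Q * d1) a - th x 1 0 / (Nat.totient (Q * d1) : ℝ)) / (Nat.totient d2 : ℝ) := by
      rw [hc', hc1']
      field_simp
      ring
    rw [h4]
    refine (abs_add_le _ _).trans (add_le_add le_rfl ?_)
    rw [abs_div, abs_of_pos r2]
    calc |th x (Q * d1) a - th x 1 0 / (Nat.totient (Q * d1) : ℝ)| / (Nat.totient d2 : ℝ)
        ≤ (T / (Nat.totient (Q * d1) : ℝ)) / (Nat.totient d2 : ℝ) :=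
          div_le_div_of_nonneg_right h3 r2.le
      _ = T / (Nat.totient Q : ℝ) *
        ((1 / (Nat.totient d1 : ℝ)) * (1 / (Nat.totient d2 : ℝ))) := by
          rw [hc1']
          field_simp

/-- PACKET EV -/
theorem ev (hSW : StmtSW) (hRK : StmtRK) (hE0 : StmtE0) (hE1 : StmtE1) (hE2 : StmtE2) :
    StmtEV := by
  intro q0 N B hq0
  obtain ⟨A1, x1, hA1, h1⟩ := hE1 (B + 1)
  obtain ⟨C, x2, h2⟩ := hE2
  obtain ⟨x3, h3⟩ := hSW q0 N (B + 2 * C + 2) hq0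
  obtain ⟨x4, h4⟩ := hRK A1 (B + 2 * C + 2) hA1
  refine ⟨max (max x1 x2) (max (max x3 x4) ⌈Real.exp ((3 : ℝ) ^ 12)⌉₊), fun x hx => ?_⟩
  have hx1 : x1 ≤ x := le_trans (le_trans (le_max_left _ _) (le_max_left _ _)) hx
  have hx2 : x2 ≤ x := le_trans (le_trans (le_max_right _ _) (le_max_left _ _)) hx
  have hx3 : x3 ≤ x := le_trans (le_trans (le_trans (le_max_left _ _) (le_max_left _ _))
    (le_max_right _ _)) hx
  have hx4 : x4 ≤ x := le_trans (le_trans (le_trans (le_max_right _ _) (le_max_left _ _))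
    (le_max_right _ _)) hx
  have hx5 : ⌈Real.exp ((3 : ℝ) ^ 12)⌉₊ ≤ x :=
    le_trans (le_trans (le_max_right _ _) (le_max_right _ _)) hx
  have hx6 : Real.exp ((3 : ℝ) ^ 12) ≤ x := (Nat.le_ceil _).trans (by exact_mod_cast hx5)
  have hxr : (0 : ℝ) < x := lt_of_lt_of_le (Real.exp_pos _) hx6
  have hx0 : 0 < x := by exact_mod_cast hxr
  have hL : (3 : ℝ) ^ 12 ≤ Real.log x := (Real.le_log_iff_exp_le hxr).2 hx6
  obtain ⟨p1, hp1, hNp, hpq, hsw⟩ := h3 x hx3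
  refine ⟨p1, hp1, hNp, hpq, fun w hw hw5 D hD a ha => ?_⟩
  obtain ⟨L, hLdef⟩ : ∃ L : ℝ, L = Real.log x := ⟨_, rfl⟩
  rw [← hLdef] at hL hw5
  have hL1 : (1 : ℝ) ≤ L := le_trans (by norm_num) hL
  have hL0 : (0 : ℝ) < L := lt_of_lt_of_le (by norm_num) hL1
  have hw1 : 1 ≤ w := le_trans hq0 hw
  have hw1' : (1 : ℝ) ≤ w := by exact_mod_cast hw1
  have hwL : (w : ℝ) ≤ L := le_trans (le_self_pow₀ hw1' (by norm_num)) hw5
  have hP1 := Pm_pos q0 p1 w
  have hQ1 : 1 ≤ Qm q0 p1 w := by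
    rw [Qm_eq]
    exact Nat.mul_pos hq0 hP1
  have hQp : ∀ p : ℕ, p.Prime → p ∣ Qm q0 p1 w → p ≤ w := by
    intro p hp hpd
    rw [Qm_eq, hp.dvd_mul] at hpd
    rcases hpd with h | h
    · exact (Nat.le_of_dvd hq0 h).trans hw
    · exact (prime_dvd_Pm hp h).1
  have hE := h1 x hx1 (Qm q0 p1 w) w p1 D hQ1 hD
    (fun p hp hpd => by
      rw [← hLdef]
      have : (p : ℝ) ≤ w := by exact_mod_cast hQp p hp hpd
      linarith) (by rw [← hLdef]; exact hwL) a ha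
  rw [← hLdef] at hE
  have hf0 : ∀ d : ℕ, 0 ≤ |th x (Qm q0 p1 w * d) (a d)
      - th x 1 0 / (Nat.totient (Qm q0 p1 w * d) : ℝ)| := fun d => abs_nonneg _
  obtain ⟨u, hu⟩ : ∃ u : ℕ, u = ⌊L ^ A1⌋₊ := ⟨_, rfl⟩
  rw [← hu] at hE
  have hwu : w ≤ u := by
    rw [hu]
    apply Nat.le_floor
    exact hwL.trans (le_self_pow₀ hL1 (by omega))
  have huL : (u : ℝ) ≤ L ^ A1 := by
    rw [hu]
    exact Nat.floor_le (by positivity)
  refine (hE0 w u p1 D _ hf0).trans ?_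
  -- facts on the two factors
  have hd1 : ∀ d1 ∈ T1 w u p1 D, 1 ≤ d1 ∧ d1 ≤ D ∧ Squarefree d1 ∧
      (∀ p : ℕ, p.Prime → p ∣ d1 → w < p ∧ p ≤ u) ∧ ¬ p1 ∣ d1 := by
    intro d1 h
    unfold T1 at h
    rw [mem_filter, mem_Icc] at h
    exact ⟨h.1.1, h.1.2, h.2.1, h.2.2.1, h.2.2.2⟩
  have hd2 : ∀ d1 : ℕ, ∀ d2 ∈ SS u (D / d1 + 1), 1 ≤ d2 ∧ d2 ≤ D / d1 ∧ Squarefree d2 ∧
      (∀ p : ℕ, p.Prime → p ∣ d2 → u < p) := by
    intro d1 d2 h
    unfold SS at h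
    rw [mem_filter, mem_Ico] at h
    exact ⟨h.1.1, by omega, h.2.1, h.2.2⟩
  have hQDx : Qm q0 p1 w * D ≤ x := by
    rcases Nat.eq_zero_or_pos (Qm q0 p1 w * D) with h0 | h0
    · rw [h0]
      exact hx0.le
    · exact (Nat.le_self_pow (by norm_num) _).trans hD
  have hDx : D ≤ x := le_trans (Nat.le_mul_of_pos_left D hQ1) hQDx
  have key : ∀ d1 ∈ T1 w u p1 D, ∀ d2 ∈ SS u (D / d1 + 1),
      |th x (Qm q0 p1 w * (d1 * d2)) (a (d1 * d2))
        - th x 1 0 / (Nat.totient (Qm q0 p1 w * (d1 * d2)) : ℝ)| ≤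
      |th x (Qm q0 p1 w * d1 * d2) (a (d1 * d2)) -
        th x (Qm q0 p1 w * d1) (a (d1 * d2)) / (Nat.totient d2 : ℝ)| +
      (x / L ^ (B + 2 * C + 2) + (if Real.exp (L ^ (1 / 4 : ℝ)) < d1 then 4 * (x : ℝ) else 0)) /
        (Nat.totient (Qm q0 p1 w) : ℝ) *
        ((1 / (Nat.totient d1 : ℝ)) * (1 / (Nat.totient d2 : ℝ))) := by
    intro d1 hm1 d2 hm2
    obtain ⟨a1, a2, a3, a4, a5⟩ := hd1 d1 hm1
    obtain ⟨b1, b2, b3, b4⟩ := hd2 d1 d2 hm2
    have c1 : Nat.Coprime (Qm q0 p1 w) d1 := by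
      apply Nat.Coprime.symm
      apply Nat.coprime_of_dvd
      intro p hp h5 h6
      have := (a4 p hp h5).1
      have := hQp p hp h6
      omega
    have c2 : Nat.Coprime (Qm q0 p1 w) d2 := by
      apply Nat.Coprime.symm
      apply Nat.coprime_of_dvd
      intro p hp h5 h6
      have := b4 p hp h5
      have := hQp p hp h6
      omega
    have c3 : Nat.Coprime d1 d2 := by
      apply Nat.coprime_of_dvd
      intro p hp h5 h6
      have := (a4 p hp h5).2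
      have := b4 p hp h6
      omega
    have hdd : d1 * d2 ≤ D := (Nat.mul_le_mul_left d1 b2).trans (Nat.mul_div_le D d1)
    have hrough : ∀ p : ℕ, p.Prime → p ∣ d1 * d2 → w < p := by
      intro p hp h5
      rw [hp.dvd_mul] at h5
      rcases h5 with h6 | h6
      · exact (a4 p hp h6).1
      · exact lt_of_le_of_lt hwu (b4 p hp h6)
    have hcop := ha (d1 * d2) hrough
    have hcQ : Nat.Coprime (Qm q0 p1 w) (d1 * d2) := Nat.Coprime.mul_right c1 c2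
    rw [mul_assoc (Qm q0 p1 w) d1 d2]
    refine one_bound (Y := Real.exp (L ^ (1 / 4 : ℝ)) < d1) hx0 hQ1 a1 b1 (by positivity)
      ((Nat.mul_le_mul_left _ hdd).trans hQDx) ?_ (Nat.totient_mul c1) ?_
    · rw [Nat.totient_mul hcQ, Nat.totient_mul c3, mul_assoc]
    · intro hY
      rw [not_lt] at hY
      have e1 : Qm q0 p1 w * d1 = q0 * (Pm q0 p1 w * d1) := by
        rw [Qm_eq, mul_assoc]
      have e2 : Squarefree (Pm q0 p1 w * d1) := by
        rw [Nat.squarefree_mul]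
        · exact ⟨Pm_squarefree _ _ _, a3⟩
        · exact Nat.Coprime.coprime_dvd_left (Dvd.intro_left q0 rfl) c1
      have e3 : ¬ p1 ∣ Pm q0 p1 w * d1 := by
        intro h5
        rw [hp1.dvd_mul] at h5
        rcases h5 with h6 | h6
        · exact (prime_dvd_Pm hp1 h6).2.1 rfl
        · exact a5 h6
      have e4 : ((Pm q0 p1 w * d1 : ℕ) : ℝ) ≤ Real.exp (L ^ (1 / 3 : ℝ)) :=
        size_le hL hw1 hw5 (Pm_le _ _ _) hY
      have e5 : Nat.Coprime (a (d1 * d2)) (q0 * (Pm q0 p1 w * d1)) := by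
        rw [← e1]
        exact Nat.Coprime.coprime_dvd_right (Nat.mul_dvd_mul_left _ (Dvd.intro _ rfl)) hcop
      have e6 := hsw (Pm q0 p1 w * d1) e2 e3 (by rw [← hLdef]; exact e4) (a (d1 * d2)) e5
      rw [← hLdef] at e6
      rw [e1]
      exact e6
  have s1 : ∀ d1 ∈ T1 w u p1 D, ∑ d2 ∈ SS u (D / d1 + 1), 1 / (Nat.totient d2 : ℝ) ≤ L ^ C := by
    intro d1 hm1
    obtain ⟨a1, a2, a3, a4, a5⟩ := hd1 d1 hm1
    rw [hLdef]
    apply h2 x hx2
    intro d2 hm2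
    obtain ⟨b1, b2, b3, b4⟩ := hd2 d1 d2 hm2
    exact ⟨b3, b2.trans ((Nat.div_le_self _ _).trans hDx)⟩
  have s2 : ∑ d1 ∈ T1 w u p1 D, 1 / (Nat.totient d1 : ℝ) ≤ L ^ C := by
    rw [hLdef]
    apply h2 x hx2
    intro d1 hm1
    obtain ⟨a1, a2, a3, a4, a5⟩ := hd1 d1 hm1
    exact ⟨a3, a2.trans hDx⟩
  have s3 : ∑ d1 ∈ (T1 w u p1 D).filter (fun d1 : ℕ => Real.exp (L ^ (1 / 4 : ℝ)) < (d1 : ℝ)),
      1 / (Nat.totient d1 : ℝ) ≤ 1 / L ^ (B + 2 * C + 2) := by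
    have h5 := h4 x hx4 ((T1 w u p1 D).filter (fun d1 : ℕ => Real.exp (L ^ (1 / 4 : ℝ)) < (d1 : ℝ)))
    rw [← hLdef] at h5
    apply h5
    intro d1 hm
    rw [mem_filter] at hm
    obtain ⟨a1, a2, a3, a4, a5⟩ := hd1 d1 hm.1
    refine ⟨a3, hm.2, fun p hp hpd => ?_⟩
    have : (p : ℝ) ≤ u := by exact_mod_cast (a4 p hp hpd).2
    exact this.trans huL
  have r0 : (0 : ℝ) < (Nat.totient (Qm q0 p1 w) : ℝ) := by
    exact_mod_cast Nat.totient_pos.2 hQ1
  have s4 : ∑ d1 ∈ T1 w u p1 D,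
      (x / L ^ (B + 2 * C + 2) + (if Real.exp (L ^ (1 / 4 : ℝ)) < d1 then 4 * (x : ℝ) else 0)) *
        (1 / (Nat.totient d1 : ℝ)) ≤ x / L ^ (B + 2 * C + 2) * (L ^ C + 4) := by
    have h5 : ∀ d1 ∈ T1 w u p1 D,
      (x / L ^ (B + 2 * C + 2) + (if Real.exp (L ^ (1 / 4 : ℝ)) < d1 then 4 * (x : ℝ) else 0)) *
        (1 / (Nat.totient d1 : ℝ)) = x / L ^ (B + 2 * C + 2) * (1 / (Nat.totient d1 : ℝ)) +
        4 * x * (if Real.exp (L ^ (1 / 4 : ℝ)) < d1 then 1 / (Nat.totient d1 : ℝ) else 0) := by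
      intro d1 _
      split_ifs <;> ring
    rw [sum_congr rfl h5, sum_add_distrib, ← mul_sum, ← mul_sum, ← sum_filter]
    have h6 := mul_le_mul_of_nonneg_left s2 (show 0 ≤ x / L ^ (B + 2 * C + 2) by positivity)
    have h7 := mul_le_mul_of_nonneg_left s3 (show 0 ≤ 4 * (x : ℝ) by positivity)
    have h8 : 4 * (x : ℝ) * (1 / L ^ (B + 2 * C + 2)) = x / L ^ (B + 2 * C + 2) * 4 := by ring
    linarith
  calc ∑ d1 ∈ T1 w u p1 D, ∑ d2 ∈ SS u (D / d1 + 1),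
      |th x (Qm q0 p1 w * (d1 * d2)) (a (d1 * d2))
        - th x 1 0 / (Nat.totient (Qm q0 p1 w * (d1 * d2)) : ℝ)|
      ≤ ∑ d1 ∈ T1 w u p1 D, ∑ d2 ∈ SS u (D / d1 + 1),
        (|th x (Qm q0 p1 w * d1 * d2) (a (d1 * d2)) -
        th x (Qm q0 p1 w * d1) (a (d1 * d2)) / (Nat.totient d2 : ℝ)| +
      (x / L ^ (B + 2 * C + 2) + (if Real.exp (L ^ (1 / 4 : ℝ)) < d1 then 4 * (x : ℝ) else 0)) /
        (Nat.totient (Qm q0 p1 w) : ℝ) *
        ((1 / (Nat.totient d1 : ℝ)) * (1 / (Nat.totient d2 : ℝ)))) :=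
        sum_le_sum fun d1 hm1 => sum_le_sum fun d2 hm2 => key d1 hm1 d2 hm2
    _ = ∑ d1 ∈ T1 w u p1 D, ∑ d2 ∈ SS u (D / d1 + 1),
        |th x (Qm q0 p1 w * d1 * d2) (a (d1 * d2)) -
        th x (Qm q0 p1 w * d1) (a (d1 * d2)) / (Nat.totient d2 : ℝ)| +
        ∑ d1 ∈ T1 w u p1 D, (x / L ^ (B + 2 * C + 2) +
          (if Real.exp (L ^ (1 / 4 : ℝ)) < d1 then 4 * (x : ℝ) else 0)) *
          (1 / (Nat.totient d1 : ℝ)) / (Nat.totient (Qm q0 p1 w) : ℝ) *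
          ∑ d2 ∈ SS u (D / d1 + 1), 1 / (Nat.totient d2 : ℝ) := by
        rw [← sum_add_distrib]
        apply sum_congr rfl
        intro d1 _
        rw [sum_add_distrib, mul_sum]
        congr 1
        apply sum_congr rfl
        intro d2 _
        ring
    _ ≤ x / (Qm q0 p1 w : ℝ) / L ^ (B + 1) +
        ∑ d1 ∈ T1 w u p1 D, (x / L ^ (B + 2 * C + 2) +
          (if Real.exp (L ^ (1 / 4 : ℝ)) < d1 then 4 * (x : ℝ) else 0)) *
          (1 / (Nat.totient d1 : ℝ)) / (Nat.totient (Qm q0 p1 w) : ℝ) * L ^ C := by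
        refine add_le_add hE (sum_le_sum fun d1 hm1 => ?_)
        apply mul_le_mul_of_nonneg_left (s1 d1 hm1)
        split_ifs <;> positivity
    _ = x / (Qm q0 p1 w : ℝ) / L ^ (B + 1) +
        (∑ d1 ∈ T1 w u p1 D, (x / L ^ (B + 2 * C + 2) +
          (if Real.exp (L ^ (1 / 4 : ℝ)) < d1 then 4 * (x : ℝ) else 0)) *
          (1 / (Nat.totient d1 : ℝ))) * (L ^ C / (Nat.totient (Qm q0 p1 w) : ℝ)) := by
        congr 1
        rw [sum_mul]
        apply sum_congr rfl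
        intro d1 _
        ring
    _ ≤ x / (Nat.totient (Qm q0 p1 w) : ℝ) / L ^ (B + 1) +
        (x / L ^ (B + 2 * C + 2) * (L ^ C + 4)) *
          (L ^ C / (Nat.totient (Qm q0 p1 w) : ℝ)) := by
        refine add_le_add ?_ ?_
        · apply div_le_div_of_nonneg_right _ (by positivity)
          apply div_le_div_of_nonneg_left hxr.le r0
          exact_mod_cast Nat.totient_le _
        · exact mul_le_mul_of_nonneg_right s4 (by positivity)
    _ ≤ x / L ^ B / (Nat.totient (Qm q0 p1 w) : ℝ) := by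
        have hC1 : (1 : ℝ) ≤ L ^ C := one_le_pow₀ hL1
        have hLB : (0 : ℝ) < L ^ B := by positivity
        have e1 : x / (Nat.totient (Qm q0 p1 w) : ℝ) / L ^ (B + 1) =
            x / L ^ B / (Nat.totient (Qm q0 p1 w) : ℝ) * (1 / L) := by
          rw [pow_succ]
          field_simp
        have e2 : (x / L ^ (B + 2 * C + 2) * (L ^ C + 4)) *
          (L ^ C / (Nat.totient (Qm q0 p1 w) : ℝ)) =
            x / L ^ B / (Nat.totient (Qm q0 p1 w) : ℝ) *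
              ((L ^ C + 4) / L ^ C * (1 / L ^ 2)) := by
          rw [show B + 2 * C + 2 = B + C + C + 2 by ring, pow_add, pow_add, pow_add]
          field_simp
        rw [e1, e2, ← mul_add]
        have e3 : (L ^ C + 4) / L ^ C ≤ 5 := by
          rw [div_le_iff₀ (by positivity)]
          linarith
        have e4 : (L ^ C + 4) / L ^ C * (1 / L ^ 2) ≤ 5 * (1 / L ^ 2) :=
          mul_le_mul_of_nonneg_right e3 (by positivity)
        have e5 : 1 / L ≤ 1 / 10 := by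
          apply one_div_le_one_div_of_le (by norm_num)
          linarith
        have e6 : 1 / L ^ 2 ≤ 1 / 10 := by
          apply one_div_le_one_div_of_le (by norm_num)
          nlinarith
        have e7 : 1 / L + (L ^ C + 4) / L ^ C * (1 / L ^ 2) ≤ 1 := by linarith
        calc x / L ^ B / (Nat.totient (Qm q0 p1 w) : ℝ) *
            (1 / L + (L ^ C + 4) / L ^ C * (1 / L ^ 2))
            ≤ x / L ^ B / (Nat.totient (Qm q0 p1 w) : ℝ) * 1 :=
              mul_le_mul_of_nonneg_left e7 (by positivity)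
          _ = _ := mul_one _
    _ = x / Real.log x ^ B / (Nat.totient (Qm q0 p1 w) : ℝ) := by rw [hLdef]

end Pool.Agent.Helper66.TW
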